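import Mathlib
set_option autoImplicit false
namespace Pool.Agent.Results.MP_acde3d_al.Yes

/-- The generalized non-coprime graph. -/
def Γ {G : Type} [Group G] (H : Subgroup G) : SimpleGraph {g : G // g ≠ 1} where
  Adj a b := a ≠ b ∧ Nat.gcd (orderOf a.1) (orderOf b.1) ≠ 1 ∧ (a.1 ∈ H ∨ b.1 ∈ H)
  symm := ⟨fun _ _ h => ⟨h.1.symm, by rw [Nat.gcd_comm]; exact h.2.1, h.2.2.symm⟩⟩
  loopless := ⟨fun _ h => h.1 rfl⟩

/-- the graph-theoretic description of the vertices outside `H` -/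
def Out {V : Type} (X : SimpleGraph V) (x : V) : Prop :=
  (∃ z, z ≠ x ∧ ∀ w, X.Adj x w ↔ X.Adj z w) ∨ ((∃ z, z ≠ x) ∧ ∀ w, ¬ X.Adj x w)

lemma Out.map {V W : Type} {X : SimpleGraph V} {Y : SimpleGraph W} (φ : X ≃g Y) {x : V}
    (h : Out X x) : Out Y (φ x) := by
  rcases h with ⟨z, h1, h2⟩ | ⟨⟨z, h1⟩, h2⟩
  · refine .inl ⟨φ z, by simpa, fun w => ?_⟩
    obtain ⟨w, rfl⟩ := φ.surjective w
    simpa [φ.map_adj_iff] using h2 w
  · refine .inr ⟨⟨φ z, by simpa⟩, fun w => ?_⟩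
    obtain ⟨w, rfl⟩ := φ.surjective w
    simpa [φ.map_adj_iff] using h2 w

variable {G : Type} [Group G] [Finite G] (H : Subgroup G)

lemma conj_ne {x : G} (g : G) (h : x ≠ 1) : g * x * g⁻¹ ≠ 1 := by
  simpa using h

lemma ord_conj (g x : G) : orderOf (g * x * g⁻¹) = orderOf x :=
  orderOf_injective (MulAut.conj g).toMonoidHom (MulAut.conj g).injective x

lemma two {x : G} (h : x ≠ 1) (k : x⁻¹ = x) : orderOf x = 2 :=
  orderOf_eq_prime (by rw [sq]; nth_rewrite 1 [← k]; simp) h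

lemma inn (x : {g : G // g ≠ 1}) (hx : x.1 ∈ H) : ¬ Out (Γ H) x := by
  have a1 : ∀ w : {g : G // g ≠ 1}, w ≠ x → orderOf w.1 = orderOf x.1 → (Γ H).Adj x w :=
    fun w h k => ⟨h.symm, by simpa [k] using x.2, .inl hx⟩
  rintro (⟨z, h1, h2⟩ | ⟨⟨z, h1⟩, h2⟩)
  · have c : Nat.gcd (orderOf z.1) (orderOf x.1) = 1 := by
      by_contra c
      exact (Γ H).irrefl ((h2 z).1 ⟨h1.symm, by rwa [Nat.gcd_comm], .inl hx⟩)
    have a2 : ∀ w : {g : G // g ≠ 1}, orderOf w.1 = orderOf x.1 → w = x := fun w k => by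
      by_contra h
      exact ((h2 w).1 (a1 w h k)).2.1 (k ▸ c)
    have x2 := two x.2 (congrArg Subtype.val (a2 ⟨x.1⁻¹, by simpa using x.2⟩ (orderOf_inv _)))
    have zH : z.1 ∉ H := fun zH => by
      have e : (⟨z.1⁻¹, by simpa using z.2⟩ : {g : G // g ≠ 1}) ≠ z := fun e => by
        rw [two z.2 (congrArg Subtype.val e), x2] at c
        simp at c
      have := ((h2 _).2 ⟨e.symm, by simpa using z.2, .inl zH⟩).2.1
      rw [orderOf_inv, Nat.gcd_comm] at this
      exact this c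
    have cm : Commute z.1 x.1 := by
      have := congrArg Subtype.val (a2 ⟨_, conj_ne z.1 x.2⟩ (ord_conj _ _))
      exact mul_inv_eq_iff_eq_mul.1 this
    have o := cm.orderOf_mul_eq_mul_orderOf_of_coprime c
    have n1 : z.1 * x.1 ≠ 1 := fun e => by
      rw [e, orderOf_one, x2] at o
      omega
    have := ((h2 ⟨_, n1⟩).1 ⟨fun e => z.2 (by simpa using congrArg Subtype.val e),
      by simp [o, x2], .inl hx⟩).2.2
    exact this.elim zH fun h => zH ((H.mul_mem_cancel_right hx).1 h)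
  · have a2 : ∀ w : {g : G // g ≠ 1}, orderOf w.1 = orderOf x.1 → w = x := fun w k => by
      by_contra h
      exact h2 w (a1 w h k)
    have x2 := two x.2 (congrArg Subtype.val (a2 ⟨x.1⁻¹, by simpa using x.2⟩ (orderOf_inv _)))
    have c : Nat.gcd (orderOf z.1) (orderOf x.1) = 1 := by
      by_contra c
      exact h2 z ⟨h1.symm, by rwa [Nat.gcd_comm], .inl hx⟩
    have cm : Commute z.1 x.1 := by
      have := congrArg Subtype.val (a2 ⟨_, conj_ne z.1 x.2⟩ (ord_conj _ _))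
      exact mul_inv_eq_iff_eq_mul.1 this
    have o := cm.orderOf_mul_eq_mul_orderOf_of_coprime c
    have n1 : z.1 * x.1 ≠ 1 := fun e => by
      rw [e, orderOf_one, x2] at o
      omega
    exact h2 ⟨_, n1⟩ ⟨fun e => z.2 (by simpa using congrArg Subtype.val e),
      by simp [o, x2], .inl hx⟩

lemma out (hH : H ≠ ⊥) (x : {g : G // g ≠ 1}) (hx : x.1 ∉ H) : Out (Γ H) x := by
  have a1 : ∀ z : {g : G // g ≠ 1}, z ≠ x → z.1 ∉ H → orderOf z.1 = orderOf x.1 →
      Out (Γ H) x := fun z h k o => .inl ⟨z, h, fun w => ⟨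
    fun a => have b := a.2.2.resolve_left hx
      ⟨by rintro rfl; exact k b, o ▸ a.2.1, .inr b⟩,
    fun a => have b := a.2.2.resolve_left k
      ⟨by rintro rfl; exact hx b, o ▸ a.2.1, .inr b⟩⟩⟩
  by_contra hO
  have a2 : ∀ z : {g : G // g ≠ 1}, z.1 ∉ H → orderOf z.1 = orderOf x.1 → z = x :=
    fun z k o => by
      by_contra h
      exact hO (a1 z h k o)
  have xi : x.1⁻¹ = x.1 :=
    congrArg Subtype.val (a2 ⟨x.1⁻¹, by simpa using x.2⟩ (by simpa) (orderOf_inv _))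
  have x2 := two x.2 xi
  obtain ⟨h, hh⟩ := Subgroup.ne_bot_iff_exists_ne_one.1 hH
  refine hO (.inr ⟨⟨⟨h.1, by simpa using hh⟩, by rintro rfl; exact hx h.2⟩, fun w a => ?_⟩)
  have wH := a.2.2.resolve_left hx
  have d : 2 ∣ orderOf w.1 := by
    have := a.2.1
    rw [x2] at this
    by_contra d
    exact this ((Nat.Prime.coprime_iff_not_dvd Nat.prime_two).2 d)
  set t := w.1 ^ (orderOf w.1 / 2) with ht
  have t2 : orderOf t = 2 := orderOf_pow_orderOf_div (orderOf_pos _).ne' d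
  have tH : t ∈ H := H.pow_mem wH _
  have cm : Commute t x.1 := by
    have := congrArg Subtype.val (a2 ⟨_, conj_ne t x.2⟩ (fun k => hx (by
      simpa [mul_assoc] using H.mul_mem (H.mul_mem (H.inv_mem tH) k) tH)) (ord_conj _ _))
    exact mul_inv_eq_iff_eq_mul.1 this
  have nH : t * x.1 ∉ H := fun k => hx ((H.mul_mem_cancel_left tH).1 k)
  have n1 : t * x.1 ≠ 1 := fun e => nH (by rw [e]; exact H.one_mem)
  have o : orderOf (t * x.1) = 2 := orderOf_eq_prime (by
    rw [cm.mul_pow, ← t2, pow_orderOf_eq_one, t2, ← x2, pow_orderOf_eq_one, one_mul]) n1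
  have e : t = 1 := by simpa using congrArg Subtype.val (a2 ⟨_, n1⟩ nH (o.trans x2.symm))
  simp [e] at t2

theorem result (G G' : Type) [Group G] [Finite G] [Group G'] [Finite G'] (H : Subgroup G)
    (H' : Subgroup G') (hH : H ≠ ⊥) (hH' : H' ≠ ⊥) (φ : Γ H ≃g Γ H') :
    φ '' {v | v.1 ∈ H} = {w | w.1 ∈ H'} := by
  ext w
  obtain ⟨v, rfl⟩ := φ.surjective w
  rw [φ.injective.mem_set_image]
  constructor
  · intro h
    by_contra k
    exact inn H v h (by simpa using (out H' hH' _ k).map φ.symm)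
  · intro h
    by_contra k
    exact inn H' _ h ((out H hH v k).map φ)

end Pool.Agent.Results.MP_acde3d_al.Yes
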